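import Pool.Agent.P8H71.SK.Stm

/-!
# Package LEN of the project SK (MP_fb74c1_an): the measure of `g⁻¹ S ∆ S` is symmetric, subadditive and continuous at `1`
-/

set_option autoImplicit false
set_option linter.all false

open MeasureTheory Set Filter Topology
open scoped ENNReal symmDiff

namespace Pool.Agent.P8H73.SK

open Pool.Agent.P8H71.SK

theorem len (hcon : S_CON) : S_LEN := by
  intro d _ _ m _ hm S hS
  have hmeas : ∀ g : SLd d, MeasurableSet (((fun x : XX d => g • x) ⁻¹' S) ∆ S) := fun g =>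
    ((hm g).measurable hS).symmDiff hS
  refine ⟨fun g => ENNReal.toReal_nonneg, fun g h => ?_, fun g => ?_, hcon d m hm S hS⟩
  · have h1 : ((fun x : XX d => (g * h) • x) ⁻¹' S) ∆ S ⊆
        ((fun x : XX d => h • x) ⁻¹' (((fun x : XX d => g • x) ⁻¹' S) ∆ S)) ∪
          (((fun x : XX d => h • x) ⁻¹' S) ∆ S) := by
      intro x hx
      simp only [mem_union, mem_preimage, mem_symmDiff, mul_smul] at hx ⊢
      tauto
    have h2 : m (((fun x : XX d => (g * h) • x) ⁻¹' S) ∆ S) ≤
        m (((fun x : XX d => g • x) ⁻¹' S) ∆ S) + m (((fun x : XX d => h • x) ⁻¹' S) ∆ S) := by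
      refine (measure_mono h1).trans ((measure_union_le _ _).trans (le_of_eq ?_))
      rw [(hm h).measure_preimage (hmeas g).nullMeasurableSet]
    beta_reduce
    rw [← ENNReal.toReal_add (measure_ne_top m _) (measure_ne_top m _)]
    exact ENNReal.toReal_mono (ENNReal.add_ne_top.2 ⟨measure_ne_top m _, measure_ne_top m _⟩) h2
  · have h1 : (fun x : XX d => g • x) ⁻¹' (((fun x : XX d => g⁻¹ • x) ⁻¹' S) ∆ S) =
        ((fun x : XX d => g • x) ⁻¹' S) ∆ S := by
      ext x
      simp only [mem_preimage, mem_symmDiff, inv_smul_smul]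
      tauto
    have h2 : m (((fun x : XX d => g⁻¹ • x) ⁻¹' S) ∆ S) = m (((fun x : XX d => g • x) ⁻¹' S) ∆ S) := by
      rw [← (hm g).measure_preimage (hmeas g⁻¹).nullMeasurableSet, h1]
    beta_reduce
    rw [h2]

end Pool.Agent.P8H73.SK
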