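import Pool.Agent.P8H71.SK.Stm

/-!
# Package LIM of the project SK (MP_fb74c1_an): a limit of conjugates of small elementary matrices
-/

set_option autoImplicit false
set_option linter.all false

open MeasureTheory Set Filter Topology
open scoped ENNReal symmDiff

namespace Pool.Agent.P8H73.SK

open Pool.Agent.P8H71.SK

/-- Small elementary matrices tend to `1`, uniformly in the indices. -/
lemma tendsto_el {d : ℕ} (I J : ℕ → Fin d) (h : ∀ n, I n ≠ J n) (τ : ℕ → ℝ) (hτ : Tendsto τ atTop (𝓝 0)) :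
    Tendsto (fun n => el (I n) (J n) (h n) (τ n)) atTop (𝓝 1) := by
  refine tendsto_subtype_rng.2 ?_
  have h1 : Tendsto (fun n => (Matrix.transvection (I n) (J n) (τ n) : Matrix (Fin d) (Fin d) ℝ)) atTop
      (𝓝 (1 : Matrix (Fin d) (Fin d) ℝ)) := by
    refine tendsto_pi_nhds.2 fun a => tendsto_pi_nhds.2 fun b => ?_
    have h2 : ∀ n, (Matrix.transvection (I n) (J n) (τ n) : Matrix (Fin d) (Fin d) ℝ) a b =
        (1 : Matrix (Fin d) (Fin d) ℝ) a b + (if I n = a ∧ J n = b then τ n else 0) := by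
      intro n
      rw [Matrix.transvection, Matrix.add_apply, Matrix.single_apply]
    have h3 : Tendsto (fun n => if I n = a ∧ J n = b then τ n else 0) atTop (𝓝 0) := by
      refine squeeze_zero_norm (a := fun n => |τ n|) (fun n => ?_) ?_
      · split_ifs
        · exact le_rfl
        · rw [norm_zero]
          exact abs_nonneg _
      · have := hτ.abs
        rwa [abs_zero] at this
    have h4 := (tendsto_const_nhds (x := (1 : Matrix (Fin d) (Fin d) ℝ) a b)).add h3
    rw [add_zero] at h4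
    exact h4.congr fun n => (h2 n).symm
  exact h1

/-- The conjugate of an elementary matrix. -/
lemma conj_el {d : ℕ} (g : SLd d) (i j : Fin d) (h : i ≠ j) (τ : ℝ) :
    (g * el i j h τ * g⁻¹).1 = 1 + τ • Matrix.vecMulVec (fun a => g.1 a i) (fun b => (g⁻¹).1 j b) := by
  have h1 : g.1 * (g⁻¹).1 = 1 := by
    have h2 : (g * g⁻¹).1 = g.1 * (g⁻¹).1 := Matrix.SpecialLinearGroup.coe_mul _ _
    rw [← h2, mul_inv_cancel]
    rfl
  have h3 : (g * el i j h τ * g⁻¹).1 = g.1 * (1 + Matrix.single i j τ) * (g⁻¹).1 := by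
    rw [Matrix.SpecialLinearGroup.coe_mul, Matrix.SpecialLinearGroup.coe_mul]
    rfl
  rw [h3, mul_add, mul_one, add_mul, h1]
  congr 1
  ext a b
  rw [Matrix.mul_apply, Finset.sum_eq_single j]
  · rw [Matrix.mul_single_apply_same, Matrix.smul_apply, Matrix.vecMulVec_apply, smul_eq_mul]
    ring
  · intro x _ hx
    rw [Matrix.mul_single_apply_of_ne _ _ _ _ _ hx, zero_mul]
  · intro hj
    exact absurd (Finset.mem_univ j) hj

theorem lim (hone : S_ONE) : S_LIM := by
  classical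
  intro d hd E hE g hg hEg
  -- a subsequence with large conjugates
  have key : ∀ N : ℕ, ∃ n : ℕ, N ≤ n ∧ ∃ i j : Fin d, i ≠ j ∧ ∃ a b : Fin d,
      (N : ℝ) < |(g n).1 a i * ((g n)⁻¹).1 j b| := by
    intro N
    obtain ⟨n, i, j, hij, a, b, h⟩ := hone d hd (fun n => g (n + N)) (fun C => by
      obtain ⟨M, hM⟩ := eventually_atTop.1 (hg C)
      exact ⟨M, hM (M + N) (Nat.le_add_right _ _)⟩) N
    exact ⟨n + N, Nat.le_add_left _ _, i, j, hij, a, b, h⟩
  choose φ hφ I J hIJ A B hAB using key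
  set col : ℕ → Fin d → ℝ := fun n a => (g (φ n)).1 a (I n) with hcol
  set row : ℕ → Fin d → ℝ := fun n b => ((g (φ n))⁻¹).1 (J n) b with hrow
  have hP : ∀ n : ℕ, (n : ℝ) < ‖col n‖ * ‖row n‖ := by
    intro n
    refine (hAB n).trans_le ?_
    rw [abs_mul]
    exact mul_le_mul (norm_le_pi_norm (col n) (A n)) (norm_le_pi_norm (row n) (B n)) (abs_nonneg _) (norm_nonneg _)
  have hPpos : ∀ n, 0 < ‖col n‖ * ‖row n‖ := fun n => (Nat.cast_nonneg n).trans_lt (hP n)
  have hc0 : ∀ n, ‖col n‖ ≠ 0 := fun n h => by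
    have := hPpos n
    rw [h, zero_mul] at this
    exact lt_irrefl _ this
  have hr0 : ∀ n, ‖row n‖ ≠ 0 := fun n h => by
    have := hPpos n
    rw [h, mul_zero] at this
    exact lt_irrefl _ this
  set c : ℕ → Fin d → ℝ := fun n => ‖col n‖⁻¹ • col n with hc
  set e : ℕ → Fin d → ℝ := fun n => ‖row n‖⁻¹ • row n with he
  have hcn : ∀ n, ‖c n‖ = 1 := fun n => by
    rw [hc]
    beta_reduce
    rw [norm_smul, norm_inv, norm_norm, inv_mul_cancel₀ (hc0 n)]
  have hen : ∀ n, ‖e n‖ = 1 := fun n => by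
    rw [he]
    beta_reduce
    rw [norm_smul, norm_inv, norm_norm, inv_mul_cancel₀ (hr0 n)]
  obtain ⟨⟨c₀, e₀⟩, hmem, ψ, hψ, hlim⟩ :=
    ((isCompact_sphere (0 : Fin d → ℝ) 1).prod (isCompact_sphere (0 : Fin d → ℝ) 1)).tendsto_subseq
      (x := fun n => (c n, e n)) (fun n => ⟨by rw [mem_sphere_zero_iff_norm]; exact hcn n,
        by rw [mem_sphere_zero_iff_norm]; exact hen n⟩)
  have hc1 : ‖c₀‖ = 1 := mem_sphere_zero_iff_norm.1 hmem.1
  have he1 : ‖e₀‖ = 1 := mem_sphere_zero_iff_norm.1 hmem.2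
  refine ⟨c₀, e₀, ?_, ?_, ?_, ?_⟩
  · intro h
    rw [h, norm_zero] at hc1
    exact zero_ne_one hc1
  · intro h
    rw [h, norm_zero] at he1
    exact zero_ne_one he1
  · have hdot : ∀ n, e n ⬝ᵥ c n = 0 := by
      intro n
      rw [he, hc]
      beta_reduce
      rw [smul_dotProduct, dotProduct_smul]
      have h1 : row n ⬝ᵥ col n = 0 := by
        have h2 : (((g (φ n))⁻¹).1 * (g (φ n)).1) (J n) (I n) = 0 := by
          have h3 : ((g (φ n))⁻¹ * g (φ n)).1 = ((g (φ n))⁻¹).1 * (g (φ n)).1 :=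
            Matrix.SpecialLinearGroup.coe_mul _ _
          rw [← h3, inv_mul_cancel]
          exact Matrix.one_apply_ne (hIJ n).symm
        rw [← h2, Matrix.mul_apply]
        rfl
      rw [h1, smul_zero, smul_zero]
    have hcont : Continuous (fun p : (Fin d → ℝ) × (Fin d → ℝ) => p.2 ⬝ᵥ p.1) := by
      unfold dotProduct
      fun_prop
    have h1 := (hcont.tendsto (c₀, e₀)).comp hlim
    have h2 : Tendsto (fun n : ℕ => (0 : ℝ)) atTop (𝓝 (e₀ ⬝ᵥ c₀)) := h1.congr fun n => hdot (ψ n)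
    exact tendsto_nhds_unique h2 tendsto_const_nhds
  · intro t h hh
    set τ : ℕ → ℝ := fun n => t / (‖col n‖ * ‖row n‖) with hτ
    have hτ0 : Tendsto τ atTop (𝓝 0) := by
      refine Tendsto.div_atTop tendsto_const_nhds ?_
      exact tendsto_atTop_mono (fun n => (hP n).le) tendsto_natCast_atTop_atTop
    set H : ℕ → SLd d := fun n => g (φ n) * el (I n) (J n) (hIJ n) (τ n) * (g (φ n))⁻¹ with hH
    have hHv : ∀ n, (H n).1 = 1 + t • Matrix.vecMulVec (c n) (e n) := by
      intro n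
      rw [hH]
      beta_reduce
      rw [conj_el]
      congr 1
      ext a b
      rw [Matrix.smul_apply, Matrix.smul_apply, Matrix.vecMulVec_apply, Matrix.vecMulVec_apply, hc, he]
      simp only [Pi.smul_apply, smul_eq_mul, hτ]
      have h1 := hc0 n
      have h2 := hr0 n
      field_simp
      rfl
    have hHlim : Tendsto (fun n => H (ψ n)) atTop (𝓝 h) := by
      refine tendsto_subtype_rng.2 ?_
      rw [hh]
      have hcont : Continuous (fun p : (Fin d → ℝ) × (Fin d → ℝ) =>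
          (1 : Matrix (Fin d) (Fin d) ℝ) + t • Matrix.vecMulVec p.1 p.2) := by
        refine continuous_const.add (Continuous.const_smul ?_ t)
        exact continuous_matrix fun a b => by
          simp only [Matrix.vecMulVec_apply]
          fun_prop
      exact ((hcont.tendsto (c₀, e₀)).comp hlim).congr fun n => (hHv (ψ n)).symm
    have h1 : Tendsto (fun n => E (h * (H (ψ n))⁻¹)) atTop (𝓝 0) := by
      refine hE.cont.comp ?_
      have h2 := (tendsto_const_nhds (x := h)).mul hHlim.inv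
      rwa [mul_inv_cancel] at h2
    have h2 : Tendsto (fun n => E (g (φ (ψ n)))) atTop (𝓝 0) := by
      refine hEg.comp ?_
      exact tendsto_atTop_mono (fun n => (hψ.le_apply).trans (hφ (ψ n))) tendsto_id
    have h3 : Tendsto (fun n => E (el (I (ψ n)) (J (ψ n)) (hIJ (ψ n)) (τ (ψ n)))) atTop (𝓝 0) :=
      hE.cont.comp (tendsto_el (fun n => I (ψ n)) (fun n => J (ψ n)) (fun n => hIJ (ψ n)) (fun n => τ (ψ n))
        (hτ0.comp hψ.tendsto_atTop))
    have h4 := h1.add ((h2.add h3).add h2)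
    rw [add_zero, add_zero, add_zero] at h4
    refine le_antisymm (ge_of_tendsto' h4 fun n => ?_) (hE.nonneg h)
    have h5 : E h ≤ E (h * (H (ψ n))⁻¹) + E (H (ψ n)) := by
      have := hE.mul (h * (H (ψ n))⁻¹) (H (ψ n))
      rwa [inv_mul_cancel_right] at this
    have h6 : E (H (ψ n)) ≤ E (g (φ (ψ n)) * el (I (ψ n)) (J (ψ n)) (hIJ (ψ n)) (τ (ψ n))) +
        E (g (φ (ψ n)))⁻¹ := hE.mul _ _
    have h7 := hE.mul (g (φ (ψ n))) (el (I (ψ n)) (J (ψ n)) (hIJ (ψ n)) (τ (ψ n)))
    have h8 := hE.inv (g (φ (ψ n)))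
    linarith

end Pool.Agent.P8H73.SK
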